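import Pool.Agent.Q299.GR.EB2A

/-!
# Project GR (helper269), job EB2
-/

set_option autoImplicit false
set_option linter.all false

open scoped Classical
open Finset Polynomial

namespace Pool.Agent.Q299.GR

open Pool.Agent.Q269.GR

theorem ord_lt {r : ℕ} (hr : Odd r) (hr1 : 1 < r) : r < 2 ^ orderOf (2 : ZMod r) := by
  haveI : NeZero r := ⟨by omega⟩
  haveI : Fact (1 < r) := ⟨hr1⟩
  have hc : Nat.Coprime 2 r := (Nat.coprime_two_left).2 hr
  have hu : ((ZMod.unitOfCoprime 2 hc : (ZMod r)ˣ) : ZMod r) = 2 := by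
    rw [ZMod.coe_unitOfCoprime]
    rfl
  have hpos : 0 < orderOf (2 : ZMod r) := by
    rw [← hu, orderOf_units]
    exact orderOf_pos _
  have h1 : ((2 ^ orderOf (2 : ZMod r) : ℕ) : ZMod r) = ((1 : ℕ) : ZMod r) := by
    push_cast
    exact pow_orderOf_eq_one _
  have h2 : 1 ≡ 2 ^ orderOf (2 : ZMod r) [MOD r] := ((ZMod.natCast_eq_natCast_iff _ _ _).1 h1).symm
  have h3 : 1 < 2 ^ orderOf (2 : ZMod r) := Nat.one_lt_two_pow hpos.ne'
  have h4 : r ∣ 2 ^ orderOf (2 : ZMod r) - 1 := (Nat.modEq_iff_dvd' h3.le).1 h2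
  have h5 := Nat.le_of_dvd (by omega) h4
  omega

/-- the eighth root of `2 ^ (-f)` -/
noncomputable def zf (f : ℕ) : ℝ := (2 : ℝ) ^ (-(1 / 8 * (f : ℝ)))

theorem zf_pos (f : ℕ) : 0 < zf f := Real.rpow_pos_of_pos (by norm_num) _

theorem zf8 (f : ℕ) : zf f ^ 8 = 1 / 2 ^ f := by
  have e1 : (1 : ℝ) / 2 ^ f = 2 ^ (-(f : ℝ)) := by
    rw [Real.rpow_neg (by norm_num), Real.rpow_natCast, one_div]
  rw [e1]
  unfold zf
  rw [← Real.rpow_natCast, ← Real.rpow_mul (by norm_num)]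
  congr 1
  push_cast
  ring

theorem two_half (x : ℝ) : (2 : ℝ) * 2 ^ (-x) = 2 ^ (1 - x) := by
  rw [Real.rpow_sub (by norm_num), Real.rpow_one, Real.rpow_neg (by norm_num), div_eq_mul_inv]

theorem half_le (f : ℕ) : 1 / (2 : ℝ) ^ (f / 2) ≤ 2 * zf f ^ 4 := by
  have e1 : zf f ^ 4 = (2 : ℝ) ^ (-(1 / 2 * (f : ℝ))) := by
    unfold zf
    rw [← Real.rpow_natCast, ← Real.rpow_mul (by norm_num)]
    congr 1
    push_cast
    ring
  rw [e1, two_half, one_div, ← Real.rpow_natCast, ← Real.rpow_neg (by norm_num)]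
  refine Real.rpow_le_rpow_of_exponent_le (by norm_num) ?_
  have h : (f : ℝ) ≤ 2 * ((f / 2 : ℕ) : ℝ) + 1 := by
    have : f ≤ 2 * (f / 2) + 1 := by omega
    exact_mod_cast this
  linarith

theorem quarter_le (f : ℕ) : 1 / (2 : ℝ) ^ (f / 4) ≤ 2 * (2 : ℝ) ^ (-(1 / 4 * (f : ℝ))) := by
  rw [two_half, one_div, ← Real.rpow_natCast, ← Real.rpow_neg (by norm_num)]
  refine Real.rpow_le_rpow_of_exponent_le (by norm_num) ?_
  have h : (f : ℝ) ≤ 4 * ((f / 4 : ℕ) : ℝ) + 3 := by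
    have : f ≤ 4 * (f / 4) + 3 := by omega
    exact_mod_cast this
  linarith

/-- the first term -/
theorem first_le {r t : ℕ} (hr : Odd r) (hr1 : 1 < r) (ht : 1 ≤ t) (htr : t ^ 8 < r) {l : ℝ}
    (hl0 : 0 ≤ 1 + l) (hl : l ≤ ((t : ℝ) + 1) ^ 10) :
    2 / (2 : ℝ) ^ (orderOf (2 : ZMod r) / 2) * ((1 + l) / r) ≤
      8192 / t * zf (orderOf (2 : ZMod r)) := by
  set f := orderOf (2 : ZMod r)
  have hf := ord_lt hr hr1
  have ht1 : (1 : ℝ) ≤ t := by exact_mod_cast ht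
  have ht0 : (0 : ℝ) < t := by linarith
  have htr' : (t : ℝ) ^ 8 ≤ r := by exact_mod_cast htr.le
  have hr0 : (0 : ℝ) < r := by
    have : 0 < r := by omega
    exact_mod_cast this
  have hz : zf f ≤ 1 / t := by
    have h1 : zf f ^ 8 ≤ (1 / (t : ℝ)) ^ 8 := by
      rw [zf8, one_div_pow]
      apply one_div_le_one_div_of_le (by positivity)
      have h2 : (r : ℝ) ≤ 2 ^ f := by exact_mod_cast hf.le
      linarith
    exact le_of_pow_le_pow_left₀ (by norm_num) (by positivity) h1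
  have hz4 : zf f ^ 4 ≤ (1 / (t : ℝ)) ^ 3 * zf f := by
    calc zf f ^ 4 = zf f ^ 3 * zf f := by ring
      _ ≤ (1 / (t : ℝ)) ^ 3 * zf f :=
        mul_le_mul_of_nonneg_right (pow_le_pow_left₀ (zf_pos f).le hz 3) (zf_pos f).le
  have h10 : 1 + l ≤ 2048 * (t : ℝ) ^ 10 := by
    have h3 : ((t : ℝ) + 1) ^ 10 ≤ (2 * t) ^ 10 := pow_le_pow_left₀ (by positivity) (by linarith) 10
    have h4 : (2 * (t : ℝ)) ^ 10 = 1024 * (t : ℝ) ^ 10 := by ring
    have h5 : (1 : ℝ) ≤ (t : ℝ) ^ 10 := one_le_pow₀ ht1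
    linarith
  have h11 : (1 + l) / r ≤ 2048 * (t : ℝ) ^ 10 / (t : ℝ) ^ 8 := by
    calc (1 + l) / r ≤ (1 + l) / (t : ℝ) ^ 8 := div_le_div_of_nonneg_left hl0 (by positivity) htr'
      _ ≤ _ := div_le_div_of_nonneg_right h10 (by positivity)
  have h12 : 2 / (2 : ℝ) ^ (f / 2) ≤ 4 * ((1 / (t : ℝ)) ^ 3 * zf f) := by
    have := half_le f
    calc 2 / (2 : ℝ) ^ (f / 2) = 2 * (1 / (2 : ℝ) ^ (f / 2)) := by ring
      _ ≤ 2 * (2 * zf f ^ 4) := by linarith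
      _ ≤ 4 * ((1 / (t : ℝ)) ^ 3 * zf f) := by linarith
  calc 2 / (2 : ℝ) ^ (f / 2) * ((1 + l) / r)
      ≤ 4 * ((1 / (t : ℝ)) ^ 3 * zf f) * (2048 * (t : ℝ) ^ 10 / (t : ℝ) ^ 8) :=
        mul_le_mul h12 h11 (by positivity) (by have := zf_pos f; positivity)
    _ = 8192 / t * zf f := by
        field_simp
        ring

/-- the other terms -/
noncomputable def gt (r : ℕ) : ℝ :=
  24 * (if Odd r then (2 : ℝ) ^ (-(1 / 4 * (orderOf (2 : ZMod r) : ℝ))) else 0) +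
    6 * ((r : ℝ) ^ 4 * (4 / 5) ^ r + 4 * ((r : ℝ) ^ 3 * (4 / 5) ^ r))

theorem gt_nonneg (r : ℕ) : 0 ≤ gt r := by
  unfold gt
  have : (0 : ℝ) ≤ if Odd r then (2 : ℝ) ^ (-(1 / 4 * (orderOf (2 : ZMod r) : ℝ))) else 0 := by
    split_ifs
    · positivity
    · exact le_rfl
  positivity

theorem gt_sum (h : S_ORD) : Summable gt := by
  unfold gt
  have h1 := (h (1 / 4) (by norm_num)).mul_left 24
  have h2 : Summable fun r : ℕ => (r : ℝ) ^ 4 * (4 / 5 : ℝ) ^ r :=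
    summable_pow_mul_geometric_of_norm_lt_one 4 (by rw [Real.norm_eq_abs]; norm_num [abs_of_pos])
  have h3 : Summable fun r : ℕ => (r : ℝ) ^ 3 * (4 / 5 : ℝ) ^ r :=
    summable_pow_mul_geometric_of_norm_lt_one 3 (by rw [Real.norm_eq_abs]; norm_num [abs_of_pos])
  exact h1.add ((h2.add (h3.mul_left 4)).mul_left 6)

theorem rest_le {r t : ℕ} (hr : Odd r) (htr : t ^ 8 < r) :
    12 / (2 : ℝ) ^ (orderOf (2 : ZMod r) / 4) + (t : ℝ) ^ 24 * (6 * (r + 4) * (4 / 5) ^ r) ≤ gt r := by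
  unfold gt
  rw [if_pos hr]
  have h1 := quarter_le (orderOf (2 : ZMod r))
  have h2 : (t : ℝ) ^ 24 ≤ (r : ℝ) ^ 3 := by
    have h3 : (t ^ 8) ^ 3 ≤ r ^ 3 := Nat.pow_le_pow_left htr.le 3
    rw [← pow_mul] at h3
    exact_mod_cast h3
  have h4 : (0 : ℝ) ≤ 6 * (r + 4) * (4 / 5) ^ r := by positivity
  have h5 := mul_le_mul_of_nonneg_right h2 h4
  have h6 : (r : ℝ) ^ 3 * (6 * (r + 4) * (4 / 5) ^ r) =
      6 * ((r : ℝ) ^ 4 * (4 / 5) ^ r + 4 * ((r : ℝ) ^ 3 * (4 / 5) ^ r)) := by ring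
  rw [h6] at h5
  have h7 : (12 : ℝ) / (2 : ℝ) ^ (orderOf (2 : ZMod r) / 4) =
      12 * (1 / (2 : ℝ) ^ (orderOf (2 : ZMod r) / 4)) := by ring
  rw [h7]
  linarith

/-- the proof of the job -/
theorem t_EB2 (h1 : S_CLC) (h2 : S_DEC) (h3 : S_TYB) (h4 : S_ERB) (h5 : S_AVP) (h6 : S_TNP)
    (h7 : S_PRD) (h8 : S_ORD) : S_EB2 := by
  intro k _ _ a b hk ε hε
  set Δ := a * b * (a - b) with hΔ
  have h0 : Δ ≠ 0 := hk.h0
  set q : ℝ := (Fintype.card k : ℝ) with hq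
  obtain ⟨s, hs⟩ := (summable_iff_vanishing_norm.1 (gt_sum h8)) (ε / 4) (by positivity)
  have hz : Summable fun r : ℕ => if Odd r then zf (orderOf (2 : ZMod r)) else 0 :=
    h8 (1 / 8) (by norm_num)
  have hz0 : ∀ r : ℕ, (0 : ℝ) ≤ if Odd r then zf (orderOf (2 : ZMod r)) else 0 := by
    intro r
    split_ifs
    · exact (zf_pos _).le
    · exact le_rfl
  set S : ℝ := ∑' r : ℕ, if Odd r then zf (orderOf (2 : ZMod r)) else 0 with hS
  have hS0 : 0 ≤ S := tsum_nonneg hz0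
  have hev : ∀ᶠ t : ℕ in Filter.atTop, 8192 / (t : ℝ) * S ≤ ε / 4 := by
    have h9 : Filter.Tendsto (fun t : ℕ => 8192 / (t : ℝ) * S) Filter.atTop (nhds (0 * S)) :=
      (tendsto_const_div_atTop_nhds_zero_nat 8192).mul_const S
    rw [zero_mul] at h9
    exact h9.eventually_le_const (by positivity)
  filter_upwards [h3 k hk.hq Δ h0 (ε / 4) (by positivity), h6.1.eventually hev,
    h6.1.eventually (Filter.eventually_ge_atTop 1),
    h6.1.eventually (Filter.eventually_ge_atTop Δ.natDegree),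
    h6.1.eventually (Filter.eventually_ge_atTop (s.sup id)),
    Filter.eventually_ge_atTop 1] with n n1 n2 n3 n4 n5 n6
  set t := tn n with ht
  have ht8 : t ≤ t ^ 8 := by
    calc t = t ^ 1 := (pow_one t).symm
      _ ≤ t ^ 8 := Nat.pow_le_pow_right (by omega) (by norm_num)
  obtain ⟨l1, l2⟩ := h6.2 n n6
  have hl0 : 0 ≤ 1 + Real.log n := by
    have : 0 ≤ Real.log n := Real.log_natCast_nonneg n
    linarith
  set RR : Finset ℕ := (Ioc (t ^ 8) n).filter fun r => Odd r ∧ 1 < r with hRR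
  have hsub : ((Dn Δ n).filter fun D => ∃ r : ℕ, Odd r ∧ 1 < r ∧ t ^ 8 < r ∧ ¬ Good r a b D) ⊆
      (Dn Δ n \ XB Δ n) ∪ RR.biUnion fun r => (XB Δ n).filter fun D => ¬ Good r a b D := by
    intro D hD
    rw [mem_filter] at hD
    obtain ⟨hD1, r, r1, r2, r3, r4⟩ := hD
    rw [mem_union]
    by_cases hX : D ∈ XB Δ n
    · right
      rw [mem_biUnion]
      have hrn : r ≤ n := by
        by_contra hc
        exact r4 (good_big h7 h0 (by omega) hD1)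
      refine ⟨r, ?_, ?_⟩
      · rw [hRR, mem_filter, mem_Ioc]
        exact ⟨⟨r3, hrn⟩, r1, r2⟩
      · rw [mem_filter]
        exact ⟨hX, r4⟩
    · left
      rw [Finset.mem_sdiff]
      exact ⟨hD1, hX⟩
  have hcard : ((((Dn Δ n).filter fun D => ∃ r : ℕ, Odd r ∧ 1 < r ∧ t ^ 8 < r ∧ ¬ Good r a b D).card
      : ℕ) : ℝ) ≤ ((Dn Δ n \ XB Δ n).card : ℝ) +
        ∑ r ∈ RR, (((XB Δ n).filter fun D => ¬ Good r a b D).card : ℝ) := by
    have g1 := (card_le_card hsub).trans ((card_union_le _ _).trans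
      (Nat.add_le_add_left card_biUnion_le _))
    exact_mod_cast g1
  have hterm : ∀ r ∈ RR, (((XB Δ n).filter fun D => ¬ Good r a b D).card : ℝ) ≤
      q ^ n * (8192 / t * zf (orderOf (2 : ZMod r)) + gt r) := by
    intro r hr
    rw [hRR, mem_filter, mem_Ioc] at hr
    obtain ⟨⟨r1, r2⟩, r3, r4⟩ := hr
    refine (bad_r h1 h2 h4 h5 h7 hk n6 r3 r4 (lt_of_le_of_lt (n4.trans ht8) r1) r1).trans ?_
    refine mul_le_mul_of_nonneg_left ?_ (by positivity)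
    have g1 := first_le r3 r4 n3 r1 hl0 l2.le
    have g2 := rest_le (t := t) r3 r1
    linarith
  have hsum1 : ∑ r ∈ RR, zf (orderOf (2 : ZMod r)) ≤ S := by
    calc ∑ r ∈ RR, zf (orderOf (2 : ZMod r))
        = ∑ r ∈ RR, (if Odd r then zf (orderOf (2 : ZMod r)) else 0) := by
          refine sum_congr rfl fun r hr => ?_
          rw [hRR, mem_filter] at hr
          rw [if_pos hr.2.1]
      _ ≤ S := hz.sum_le_tsum _ fun r _ => hz0 r
  have hsum2 : ∑ r ∈ RR, gt r ≤ ε / 4 := by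
    have hdis : Disjoint RR s := by
      rw [Finset.disjoint_left]
      intro r hr hrs
      rw [hRR, mem_filter, mem_Ioc] at hr
      have : r ≤ s.sup id := Finset.le_sup (f := id) hrs
      omega
    have g1 := hs RR hdis
    rw [Real.norm_eq_abs, abs_of_nonneg (sum_nonneg fun r _ => gt_nonneg r)] at g1
    exact g1.le
  have hqn : 0 ≤ q ^ n := by positivity
  have ht0 : (0 : ℝ) ≤ 8192 / t := by positivity
  calc ((((Dn Δ n).filter fun D => ∃ r : ℕ, Odd r ∧ 1 < r ∧ t ^ 8 < r ∧ ¬ Good r a b D).card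
      : ℕ) : ℝ) ≤ ((Dn Δ n \ XB Δ n).card : ℝ) +
        ∑ r ∈ RR, (((XB Δ n).filter fun D => ¬ Good r a b D).card : ℝ) := hcard
    _ ≤ ε / 4 * q ^ n + ∑ r ∈ RR, q ^ n * (8192 / t * zf (orderOf (2 : ZMod r)) + gt r) :=
        add_le_add n1 (sum_le_sum hterm)
    _ = ε / 4 * q ^ n + q ^ n * (8192 / t * ∑ r ∈ RR, zf (orderOf (2 : ZMod r)) + ∑ r ∈ RR, gt r) := by
        rw [← mul_sum, sum_add_distrib, ← mul_sum]
    _ ≤ ε / 4 * q ^ n + q ^ n * (ε / 4 + ε / 4) := by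
        have g2 : 8192 / (t : ℝ) * ∑ r ∈ RR, zf (orderOf (2 : ZMod r)) ≤ ε / 4 :=
          (mul_le_mul_of_nonneg_left hsum1 ht0).trans n2
        have g3 : 8192 / (t : ℝ) * ∑ r ∈ RR, zf (orderOf (2 : ZMod r)) + ∑ r ∈ RR, gt r ≤
            ε / 4 + ε / 4 := add_le_add g2 hsum2
        have g4 := mul_le_mul_of_nonneg_left g3 hqn
        linarith
    _ ≤ ε * q ^ n := by nlinarith

end Pool.Agent.Q299.GR
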