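import Pool.Agent.Q269.GR.StE

/-!
# Project GR (helper269), job EB2, part 1: one large order
-/

set_option autoImplicit false
set_option linter.all false

open scoped Classical
open Finset Polynomial

namespace Pool.Agent.Q299.GR

open Pool.Agent.Q269.GR
open Pool.Agent.Y164.PS (L sg)

section one

variable {k : Type} [Field k] [Fintype k]

theorem mem_Dn {Δ : k[X]} {n : ℕ} {D : k[X]} :
    D ∈ Dn Δ n ↔ (D.Monic ∧ D.natDegree = n) ∧ Squarefree D ∧ IsCoprime D Δ := by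
  rw [Dn, mem_filter, Pool.Agent.H341R2.Sharp.mem_Mon]

theorem good_big (h7 : S_PRD) {a b : k[X]} (h0 : a * b * (a - b) ≠ 0) {n r : ℕ} (hr : n < r)
    {D : k[X]} (hD : D ∈ Dn (a * b * (a - b)) n) : Good r a b D := by
  obtain ⟨h1, h2, h3, h4, h5, h6⟩ := h7 k _ h0
  have hp := (h2 n D hD).2.2
  haveI : IsEmpty {i : {P : k[X] // P ∈ pr D} // r ∣ (i.1).natDegree} := by
    refine ⟨fun i => ?_⟩
    obtain ⟨⟨P, hP⟩, hi⟩ := i
    obtain ⟨e1, e2, e3⟩ := (hp P).1 hP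
    have h7 : P.natDegree ≤ D.natDegree := natDegree_le_of_dvd e3 (mem_Dn.1 hD).1.1.ne_zero
    have h8 : 0 < P.natDegree := e2.natDegree_pos
    have h9 : r ≤ P.natDegree := Nat.le_of_dvd h8 hi
    have h10 := (mem_Dn.1 hD).1.2
    omega
  unfold Good
  exact (Submodule.eq_bot_iff _).2 fun x _ => Subsingleton.elim _ _

/-- the harmonic sum over the multiples of `r` -/
theorem harm (n r : ℕ) (hr : 0 < r) (W : ℕ → Prop) (hW : ∀ d, W d ↔ r ∣ d) :
    ∑ d ∈ (Icc 1 n).filter W, 1 / (d : ℝ) ≤ (1 + Real.log n) / r := by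
  have hsub : (Icc 1 n).filter W ⊆ (Icc 1 n).image (fun j => r * j) := by
    intro d hd
    rw [mem_filter, mem_Icc, hW] at hd
    obtain ⟨⟨h1, h2⟩, j, hj⟩ := hd
    rw [mem_image]
    refine ⟨j, ?_, hj.symm⟩
    rw [mem_Icc]
    have hj0 : 0 < j := by
      rcases Nat.eq_zero_or_pos j with h | h
      · rw [h, mul_zero] at hj
        omega
      · exact h
    refine ⟨hj0, ?_⟩
    calc j = 1 * j := (one_mul j).symm
      _ ≤ r * j := Nat.mul_le_mul_right j hr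
      _ = d := hj.symm
      _ ≤ n := h2
  have hr0 : (0 : ℝ) < r := by exact_mod_cast hr
  calc ∑ d ∈ (Icc 1 n).filter W, 1 / (d : ℝ)
      ≤ ∑ d ∈ (Icc 1 n).image (fun j => r * j), 1 / (d : ℝ) :=
        sum_le_sum_of_subset_of_nonneg hsub fun _ _ _ => by positivity
    _ = ∑ j ∈ Icc 1 n, 1 / ((r * j : ℕ) : ℝ) := by
        rw [sum_image]
        intro x _ y _ hxy
        exact Nat.eq_of_mul_eq_mul_left hr hxy
    _ = (∑ j ∈ Icc 1 n, (j : ℝ)⁻¹) / r := by
        rw [sum_div]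
        refine sum_congr rfl fun j _ => ?_
        push_cast
        rw [one_div, mul_inv, mul_comm, div_eq_mul_inv]
    _ ≤ (1 + Real.log n) / r := by
        have h := harmonic_le_one_add_log n
        rw [harmonic_eq_sum_Icc] at h
        push_cast at h
        exact div_le_div_of_nonneg_right h hr0.le

/-- the members of a cell of `XB` -/
theorem XB_cell (h7 : S_PRD) {Δ : k[X]} (h0 : Δ ≠ 0) {n m : ℕ} {P0 : Fin m → k[X]}
    {mv : Finset (Fin m)} (hc : IsCe Δ P0 mv) (hX : ∏ i, P0 i ∈ XB Δ n) {T : Fin m → k[X]}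
    (hT : T ∈ Fintype.piFinset (Ce P0 mv)) : ∏ i, T i ∈ XB Δ n ∧ pr (∏ i, T i) = univ.image T ∧
      (∀ i, (T i).natDegree = dg P0 i) ∧ Function.Injective T ∧ m ≤ tn n ^ 12 := by
  obtain ⟨h1, h2, h3, h4, h5, h6⟩ := h7 k Δ h0
  obtain ⟨hf, hd, _⟩ := h6 m P0 mv hc T hT
  obtain ⟨e1, e2⟩ := h1 (Fin m) T hf
  obtain ⟨e3, e4⟩ := h1 (Fin m) P0 hc.fam
  rw [XB, mem_filter] at hX
  obtain ⟨hX1, hX2, hX3⟩ := hX
  have hsum : ∑ i, (P0 i).natDegree = n := by
    have := (mem_Dn.1 e4).1.2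
    have h8 := (mem_Dn.1 hX1).1.2
    omega
  have hsumT : ∑ i, (T i).natDegree = n := by
    rw [← hsum]
    exact sum_congr rfl fun i _ => hd i
  rw [hsumT] at e2
  have hcardT : (pr (∏ i, T i)).card = m := by
    rw [e1, card_image_of_injective _ hf.inj, card_univ, Fintype.card_fin]
  have hcardP : (pr (∏ i, P0 i)).card = m := by
    rw [e3, card_image_of_injective _ hc.fam.inj, card_univ, Fintype.card_fin]
  rw [hcardP] at hX2
  refine ⟨?_, e1, hd, hf.inj, hX2⟩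
  rw [XB, mem_filter]
  refine ⟨e2, by rw [hcardT]; exact hX2, ?_⟩
  intro P hP P' hP' ht hPP
  rw [e1, mem_image] at hP hP'
  obtain ⟨i, _, rfl⟩ := hP
  obtain ⟨j, _, rfl⟩ := hP'
  rw [hd i, hd j] at hPP
  rw [hd i] at ht
  have h9 : P0 i = P0 j := hX3 (P0 i) (by rw [e3]; exact mem_image_of_mem _ (mem_univ i)) (P0 j)
    (by rw [e3]; exact mem_image_of_mem _ (mem_univ j)) ht hPP
  rw [hc.fam.inj h9]

/-- one large order -/
theorem bad_r (h1 : S_CLC) (h2 : S_DEC) (h4 : S_ERB) (h5 : S_AVP) (h7 : S_PRD) {a b : k[X]}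
    (hk : Hyk k a b) {n r : ℕ} (hn : 1 ≤ n) (hr : Odd r) (hr1 : 1 < r)
    (hΔ : (a * b * (a - b)).natDegree < r) (ht : tn n ^ 8 < r) :
    (((XB (a * b * (a - b)) n).filter fun D => ¬ Good r a b D).card : ℝ) ≤
      (Fintype.card k : ℝ) ^ n * (2 / 2 ^ (orderOf (2 : ZMod r) / 2) * ((1 + Real.log n) / r) +
        12 / 2 ^ (orderOf (2 : ZMod r) / 4) + (tn n : ℝ) ^ 24 * (6 * (r + 4) * (4 / 5) ^ r)) := by
  set Δ := a * b * (a - b) with hΔd
  have h0 : Δ ≠ 0 := hk.h0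
  set f := orderOf (2 : ZMod r) with hf
  obtain ⟨W, hW⟩ : ∃ W : ℕ → Prop, ∀ d, W d ↔ r ∣ d := ⟨_, fun _ => Iff.rfl⟩
  set J : k[X] → ℝ := fun D => (((pr D).filter fun P => W P.natDegree).card : ℝ) with hJ
  set c2 : ℝ := 12 / 2 ^ (f / 4) + (tn n : ℝ) ^ 24 * (6 * (r + 4) * (4 / 5) ^ r) with hc2
  set ψ : k[X] → ℝ := fun D => 2 / 2 ^ (f / 2) * J D + c2 with hψ
  have hc20 : 0 ≤ c2 := by positivity
  have key : ∑ D ∈ XB Δ n, (if ¬ Good r a b D then (1 : ℝ) else 0) ≤ ∑ D ∈ XB Δ n, ψ D := by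
    have hpos : ∀ (m : ℕ) (P0 : Fin m → k[X]), Pfam Δ P0 → ∀ i, 0 < dg P0 i := fun m P0 hP i =>
      (hP.irr i).natDegree_pos
    obtain ⟨μ, hμd⟩ : ∃ μ : ℕ → Prop, ∀ d, μ d ↔ (0 < d ∧ r ∣ d) := ⟨_, fun _ => Iff.rfl⟩
    refine h2 k Δ h0 μ n (XB Δ n) ?_ (filter_subset _ _) ?_ ?_ _ _ ?_
    · intro d hd
      rw [hμd] at hd
      exact lt_of_lt_of_le hΔ (Nat.le_of_dvd hd.1 hd.2)
    · intro D hD P hP P' hP' hμ hdeg
      rw [XB, mem_filter] at hD
      rw [hμd] at hμ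
      exact hD.2.2 P hP P' hP' (lt_of_lt_of_le ht (Nat.le_of_dvd hμ.1 hμ.2)) hdeg
    · intro m P0 hc hX T hT
      exact (XB_cell h7 h0 hc hX hT).1
    · intro m P0 hc hX
      have hmv' : ∀ i, i ∈ (univ.filter fun i => μ (dg P0 i)) ↔ r ∣ dg P0 i := by
        intro i
        rw [mem_filter, hμd]
        exact ⟨fun h => h.2.2, fun h => ⟨mem_univ i, hpos m P0 hc.fam i, h⟩⟩
      revert hc hX hmv'
      generalize (univ.filter fun i => μ (dg P0 i)) = mv
      intro hc hX hmv'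
      have hψT : ∀ T ∈ Fintype.piFinset (Ce P0 mv), ψ (∏ i, T i) = 2 / 2 ^ (f / 2) * mv.card + c2 := by
        intro T hT
        obtain ⟨_, e1, e2, e3, _⟩ := XB_cell h7 h0 hc hX hT
        have e4 : J (∏ i, T i) = mv.card := by
          simp only [hJ]
          rw [e1, filter_image, card_image_of_injective _ e3]
          congr 2
          ext i
          rw [mem_filter, hmv' i, e2 i, hW]
          simp
        simp only [hψ]
        rw [e4]
      rw [sum_congr rfl hψT, sum_const, nsmul_eq_mul]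
      have hcl := h1 k hk.hk hk.hm hk.hq a b h0 m P0 mv r hr hr1 hmv' hc
      have e5 : ∑ T ∈ Fintype.piFinset (Ce P0 mv), (if ¬ Good r a b (∏ i, T i) then (1 : ℝ) else 0) =
          (((Fintype.piFinset (Ce P0 mv)).filter fun T => ¬ Good r a b (∏ i, T i)).card : ℝ) := by
        rw [sum_boole]
      rw [e5]
      refine hcl.trans ?_
      rw [mul_comm]
      refine mul_le_mul_of_nonneg_left ?_ (Nat.cast_nonneg _)
      by_cases hne : (Fintype.piFinset (Ce P0 mv)).Nonempty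
      · obtain ⟨T, hT⟩ := hne
        have hm : m ≤ tn n ^ 12 := (XB_cell h7 h0 hc hX hT).2.2.2.2
        have hmm : (m : ℝ) ^ 2 ≤ (tn n : ℝ) ^ 24 := by
          have : (m : ℝ) ≤ (tn n : ℝ) ^ 12 := by exact_mod_cast hm
          calc (m : ℝ) ^ 2 ≤ ((tn n : ℝ) ^ 12) ^ 2 := pow_le_pow_left₀ (Nat.cast_nonneg _) this 2
            _ = (tn n : ℝ) ^ 24 := by rw [← pow_mul]
        have her := h4 k hk.hq Δ m r P0 mv hr hr1 hmv' hc
        have her' : erT r P0 mv (8 * 2 ^ ((r - 1) / 2)) ≤ (tn n : ℝ) ^ 24 * (6 * (r + 4) * (4 / 5) ^ r) :=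
          her.trans (mul_le_mul_of_nonneg_right hmm (by positivity))
        have p1 : (0 : ℝ) ≤ 2 / 2 ^ (f / 2) * mv.card := by positivity
        have p2 : (0 : ℝ) ≤ 12 / 2 ^ (f / 4) := by positivity
        have p3 : (0 : ℝ) ≤ (tn n : ℝ) ^ 24 * (6 * (r + 4) * (4 / 5) ^ r) := by positivity
        split_ifs with g1 g2
        · have e6 : (2 : ℝ) * mv.card / 2 ^ (f / 2) = 2 / 2 ^ (f / 2) * mv.card := by ring
          rw [e6, hc2]
          linarith
        · rw [hc2]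
          linarith
        · linarith
      · rw [not_nonempty_iff_eq_empty] at hne
        exfalso
        have hP0 : P0 ∈ Fintype.piFinset (Ce P0 mv) := by
          rw [Fintype.mem_piFinset]
          intro i
          unfold Ce
          split_ifs
          · rw [Irn, mem_filter, Pool.Agent.H341R2.Sharp.mem_Mon]
            exact ⟨⟨hc.fam.mon i, rfl⟩, hc.fam.irr i⟩
          · exact mem_singleton_self _
        rw [hne] at hP0
        exact absurd hP0 (notMem_empty _)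
  obtain ⟨a1, a2, a3⟩ := h5 k hk.hq Δ h0 n hn
  have hJsum : ∑ D ∈ XB Δ n, J D ≤ (Fintype.card k : ℝ) ^ n * ((1 + Real.log n) / r) := by
    calc ∑ D ∈ XB Δ n, J D ≤ ∑ D ∈ Dn Δ n, J D :=
          sum_le_sum_of_subset_of_nonneg (filter_subset _ _) fun _ _ _ => Nat.cast_nonneg _
      _ ≤ (Fintype.card k : ℝ) ^ n * ∑ d ∈ (Icc 1 n).filter W, 1 / (d : ℝ) := a2 W
      _ ≤ _ := mul_le_mul_of_nonneg_left (harm n r (by omega) W hW) (by positivity)
  have hXcard : ((XB Δ n).card : ℝ) ≤ (Fintype.card k : ℝ) ^ n := by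
    refine le_trans ?_ a1
    exact_mod_cast card_le_card (filter_subset _ _)
  have e7 : (((XB Δ n).filter fun D => ¬ Good r a b D).card : ℝ) =
      ∑ D ∈ XB Δ n, (if ¬ Good r a b D then (1 : ℝ) else 0) := by
    rw [sum_boole]
  rw [e7]
  refine key.trans ?_
  simp only [hψ]
  rw [sum_add_distrib, ← mul_sum, sum_const, nsmul_eq_mul]
  have p4 : (0 : ℝ) ≤ 2 / 2 ^ (f / 2) := by positivity
  have g1 := mul_le_mul_of_nonneg_left hJsum p4
  have g2 := mul_le_mul_of_nonneg_right hXcard hc20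
  calc 2 / 2 ^ (f / 2) * ∑ D ∈ XB Δ n, J D + ((XB Δ n).card : ℝ) * c2
      ≤ 2 / 2 ^ (f / 2) * ((Fintype.card k : ℝ) ^ n * ((1 + Real.log n) / r)) +
        (Fintype.card k : ℝ) ^ n * c2 := add_le_add g1 g2
    _ = _ := by
        rw [hc2]
        ring

end one

end Pool.Agent.Q299.GR
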